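import Mathlib

set_option autoImplicit false

/-!
# An edge subdivision that decreases the energy of a graph

A connected graph on `11` vertices with an edge `01` that is not the central edge of an induced
diamond and does not satisfy the second condition, but whose subdivision decreases the energy.
(A computer search shows that no graph on at most `10` vertices has such an edge.)
-/

open Finset Matrix

namespace Pool.Agent.Results.MP_8ce0fa_co.ElevenVertices

variable {V : Type*} [Fintype V] [DecidableEq V]

lemma adj_hermitian (G : SimpleGraph V) [DecidableRel G.Adj] : (G.adjMatrix ℝ).IsHermitian := by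
  rw [Matrix.IsHermitian, Matrix.conjTranspose_eq_transpose_of_trivial]
  exact G.isSymm_adjMatrix

/-- The energy of a graph: the sum of the absolute values of the eigenvalues of its adjacency
matrix. -/
noncomputable def energy (G : SimpleGraph V) [DecidableRel G.Adj] : ℝ :=
  ∑ k, |(adj_hermitian G).eigenvalues k|

/-- The graph obtained by subdividing the edge `ij`: the edge `ij` is deleted and a new vertex
(`none`), adjacent to exactly `i` and `j`, is added. -/
def subdivide {V : Type*} (G : SimpleGraph V) (i j : V) : SimpleGraph (Option V) where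
  Adj x y := match x, y with
    | some a, some b => G.Adj a b ∧ ¬ ((a = i ∧ b = j) ∨ (a = j ∧ b = i))
    | none, some a => a = i ∨ a = j
    | some a, none => a = i ∨ a = j
    | none, none => False
  symm := ⟨by
    rintro (_ | a) (_ | b) h
    · exact h
    · exact h
    · exact h
    · exact ⟨h.1.symm, fun hh => h.2 (hh.elim (fun p => Or.inr ⟨p.2, p.1⟩)
        (fun p => Or.inl ⟨p.2, p.1⟩))⟩⟩
  loopless := ⟨by
    rintro (_ | a) h
    · exact h
    · exact G.loopless.irrefl a h.1⟩

instance {V : Type*} [DecidableEq V] (G : SimpleGraph V) [DecidableRel G.Adj] (i j : V) :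
    DecidableRel (subdivide G i j).Adj := fun x y => match x, y with
  | some a, some b => inferInstanceAs (Decidable (G.Adj a b ∧ ¬ ((a = i ∧ b = j) ∨ (a = j ∧ b = i))))
  | none, some a => inferInstanceAs (Decidable (a = i ∨ a = j))
  | some a, none => inferInstanceAs (Decidable (a = i ∨ a = j))
  | none, none => inferInstanceAs (Decidable False)

/-- `ij` is the central edge of an induced diamond: `i` and `j` are adjacent and have two distinct
common neighbours `k`, `l` that are not adjacent. -/
def IsCentralEdge {V : Type*} (G : SimpleGraph V) (i j : V) : Prop :=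
  G.Adj i j ∧ ∃ k l, k ≠ l ∧ G.Adj i k ∧ G.Adj i l ∧ G.Adj j k ∧ G.Adj j l ∧ ¬ G.Adj k l

/-- The second condition: `N[i] = N[j] = W`, `G[W]` is complete and every vertex of `W ∖ {i, j}`
has degree larger than the degree of `i`. -/
def SecondCondition (G : SimpleGraph V) [DecidableRel G.Adj] (i j : V) : Prop :=
  (∀ v, (v = i ∨ G.Adj i v) ↔ (v = j ∨ G.Adj j v)) ∧
  (∀ u v, (u = i ∨ G.Adj i u) → (v = i ∨ G.Adj i v) → u ≠ v → G.Adj u v) ∧
  (∀ w, (w = i ∨ G.Adj i w) → w ≠ i → w ≠ j → G.degree i < G.degree w)

/-! ### Two bounds for the sum of the absolute values of the eigenvalues -/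

section bounds

variable {A : Matrix V V ℝ} (hA : A.IsHermitian)

/-- conjugation by the matrix of eigenvectors -/
noncomputable def Bm (M : Matrix V V ℝ) : Matrix V V ℝ :=
  (hA.eigenvectorUnitary : Matrix V V ℝ)ᴴ * M * (hA.eigenvectorUnitary : Matrix V V ℝ)

omit [DecidableEq V] in
lemma psd_diag {M : Matrix V V ℝ} (h : M.PosSemidef) (i : V) : 0 ≤ M i i := h.diag_nonneg

lemma UU' : (hA.eigenvectorUnitary : Matrix V V ℝ) * (hA.eigenvectorUnitary : Matrix V V ℝ)ᴴ = 1 :=
  Unitary.mul_star_self_of_mem hA.eigenvectorUnitary.2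

lemma U'U : (hA.eigenvectorUnitary : Matrix V V ℝ)ᴴ * (hA.eigenvectorUnitary : Matrix V V ℝ) = 1 :=
  Unitary.star_mul_self_of_mem hA.eigenvectorUnitary.2

lemma Bm_trace (M : Matrix V V ℝ) : (Bm hA M).trace = M.trace := by
  unfold Bm
  rw [Matrix.trace_mul_comm, ← Matrix.mul_assoc, UU' hA, Matrix.one_mul]

lemma Bm_mul (M N : Matrix V V ℝ) : Bm hA (M * N) = Bm hA M * Bm hA N := by
  unfold Bm
  have := UU' hA
  calc (hA.eigenvectorUnitary : Matrix V V ℝ)ᴴ * (M * N) * (hA.eigenvectorUnitary : Matrix V V ℝ)
      = (hA.eigenvectorUnitary : Matrix V V ℝ)ᴴ * M * 1 * N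
          * (hA.eigenvectorUnitary : Matrix V V ℝ) := by
        simp only [Matrix.mul_one, Matrix.mul_assoc]
    _ = _ := by rw [← this]; simp only [Matrix.mul_assoc]

lemma Bm_self : Bm hA A = diagonal hA.eigenvalues := by
  have h := hA.conjStarAlgAut_star_eigenvectorUnitary
  rw [Unitary.conjStarAlgAut_star_apply] at h
  unfold Bm
  rw [← Matrix.star_eq_conjTranspose, h]
  congr 1

lemma Bm_psd {M : Matrix V V ℝ} (hM : M.PosSemidef) : (Bm hA M).PosSemidef :=
  hM.conjTranspose_mul_mul_same _

lemma Bm_add (M N : Matrix V V ℝ) : Bm hA (M + N) = Bm hA M + Bm hA N := by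
  unfold Bm; rw [Matrix.mul_add, Matrix.add_mul]

lemma Bm_sub (M N : Matrix V V ℝ) : Bm hA (M - N) = Bm hA M - Bm hA N := by
  unfold Bm; rw [Matrix.mul_sub, Matrix.sub_mul]

lemma Bm_one : Bm hA 1 = 1 := by
  unfold Bm; rw [Matrix.mul_one, U'U hA]

lemma lower (X : Matrix V V ℝ) (h1 : (1 - X).PosSemidef) (h2 : (1 + X).PosSemidef) :
    (A * X).trace ≤ ∑ i, |hA.eigenvalues i| := by
  rw [← Bm_trace hA, Bm_mul, Bm_self, Matrix.trace]
  apply Finset.sum_le_sum
  intro i _
  rw [Matrix.diag_apply, Matrix.diagonal_mul]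
  have e1 := psd_diag (Bm_psd hA h1) i
  have e2 := psd_diag (Bm_psd hA h2) i
  rw [Bm_sub, Bm_one, Matrix.sub_apply, Matrix.one_apply_eq] at e1
  rw [Bm_add, Bm_one, Matrix.add_apply, Matrix.one_apply_eq] at e2
  calc hA.eigenvalues i * Bm hA X i i ≤ |hA.eigenvalues i * Bm hA X i i| := le_abs_self _
    _ = |hA.eigenvalues i| * |Bm hA X i i| := abs_mul _ _
    _ ≤ |hA.eigenvalues i| * 1 := by
        apply mul_le_mul_of_nonneg_left _ (abs_nonneg _)
        rw [abs_le]; constructor <;> linarith
    _ = _ := mul_one _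

lemma upper (P Q : Matrix V V ℝ) (hP : P.PosSemidef) (hQ : Q.PosSemidef) (h : A = P - Q) :
    ∑ i, |hA.eigenvalues i| ≤ P.trace + Q.trace := by
  rw [← Bm_trace hA P, ← Bm_trace hA Q, Matrix.trace, Matrix.trace, ← Finset.sum_add_distrib]
  apply Finset.sum_le_sum
  intro i _
  rw [Matrix.diag_apply, Matrix.diag_apply]
  have e1 := psd_diag (Bm_psd hA hP) i
  have e2 := psd_diag (Bm_psd hA hQ) i
  have e3 : hA.eigenvalues i = Bm hA P i i - Bm hA Q i i := by
    have := congrFun (congrFun (Bm_self hA) i) i
    rw [Matrix.diagonal_apply_eq] at this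
    rw [← this, ← Matrix.sub_apply, ← Bm_sub, ← h]
  rw [e3, abs_le]; constructor <;> linarith

end bounds

/-! ### Certificates for positive semidefiniteness -/

omit [DecidableEq V] in
lemma dd_psd [DecidableEq V] (E : Matrix V V ℝ) (hs : Eᵀ = E)
    (hd : ∀ i, ∑ j ∈ univ.erase i, |E i j| ≤ E i i) : E.PosSemidef := by
  refine Matrix.PosSemidef.of_dotProduct_mulVec_nonneg ?_ ?_
  · rw [Matrix.IsHermitian, Matrix.conjTranspose_eq_transpose_of_trivial, hs]
  · intro x
    have hx : star x ⬝ᵥ (E *ᵥ x) = ∑ i, ∑ j, E i j * x i * x j := by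
      simp only [dotProduct, Matrix.mulVec, star_trivial, Finset.mul_sum]
      refine sum_congr rfl fun i _ => sum_congr rfl fun j _ => by ring
    rw [hx]
    have h1 : ∀ i, ∑ j, E i j * x i * x j
        ≥ E i i * x i ^ 2 - ∑ j ∈ univ.erase i, |E i j| * ((x i ^ 2 + x j ^ 2) / 2) := by
      intro i
      rw [← Finset.add_sum_erase _ _ (mem_univ i)]
      have : -(∑ j ∈ univ.erase i, |E i j| * ((x i ^ 2 + x j ^ 2) / 2))
          ≤ ∑ j ∈ univ.erase i, E i j * x i * x j := by
        rw [← Finset.sum_neg_distrib]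
        apply Finset.sum_le_sum
        intro j _
        have a1 : |E i j * x i * x j| ≤ |E i j| * ((x i ^ 2 + x j ^ 2) / 2) := by
          rw [mul_assoc, abs_mul]
          apply mul_le_mul_of_nonneg_left _ (abs_nonneg _)
          rw [abs_le]
          constructor <;> nlinarith [sq_nonneg (x i - x j), sq_nonneg (x i + x j)]
        have a2 := neg_abs_le (E i j * x i * x j)
        linarith
      nlinarith [this]
    have h2 : ∑ i, ∑ j ∈ univ.erase i, |E i j| * ((x i ^ 2 + x j ^ 2) / 2)
        = ∑ i, ∑ j ∈ univ.erase i, |E i j| * x i ^ 2 := by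
      have hsplit : ∀ i, ∑ j ∈ univ.erase i, |E i j| * ((x i ^ 2 + x j ^ 2) / 2)
          = (∑ j ∈ univ.erase i, |E i j| * x i ^ 2) / 2
            + (∑ j ∈ univ.erase i, |E i j| * x j ^ 2) / 2 := by
        intro i
        rw [← add_div, ← Finset.sum_add_distrib, Finset.sum_div]
        exact sum_congr rfl fun j _ => by ring
      have hswap : ∑ i, ∑ j ∈ univ.erase i, |E i j| * x j ^ 2
          = ∑ i, ∑ j ∈ univ.erase i, |E i j| * x i ^ 2 := by
        rw [Finset.sum_comm' (t' := univ) (s' := fun i => univ.erase i)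
          (by intro a b; simp [eq_comm])]
        refine sum_congr rfl fun i _ => sum_congr rfl fun j _ => ?_
        have : E j i = E i j := congrFun (congrFun hs i) j
        rw [this]
      rw [sum_congr rfl fun i _ => hsplit i, sum_add_distrib, ← Finset.sum_div, ← Finset.sum_div,
        hswap]
      ring
    have h3 : ∑ i, ∑ j ∈ univ.erase i, |E i j| * x i ^ 2 ≤ ∑ i, E i i * x i ^ 2 := by
      apply Finset.sum_le_sum
      intro i _
      rw [← Finset.sum_mul]
      exact mul_le_mul_of_nonneg_right (hd i) (sq_nonneg _)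
    calc (0 : ℝ) ≤ ∑ i, E i i * x i ^ 2
          - ∑ i, ∑ j ∈ univ.erase i, |E i j| * ((x i ^ 2 + x j ^ 2) / 2) := by
            rw [h2]; linarith
      _ = ∑ i, (E i i * x i ^ 2
          - ∑ j ∈ univ.erase i, |E i j| * ((x i ^ 2 + x j ^ 2) / 2)) := by
            rw [Finset.sum_sub_distrib]
      _ ≤ _ := Finset.sum_le_sum fun i _ => h1 i

/-- real version of an integer matrix -/
def toR (M : Matrix V V ℤ) : Matrix V V ℝ := M.map (Int.cast : ℤ → ℝ)

/-- the integer certificate for positive semidefiniteness -/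
def Cert (c : ℤ) (M S : Matrix V V ℤ) : Prop :=
  Mᵀ = M ∧ ∀ i, ∑ j ∈ univ.erase i, |c * M i j - ∑ k, S i k * S j k|
    ≤ c * M i i - ∑ k, S i k * S i k

lemma cert_psd (c : ℤ) (hc : 0 < c) (M S : Matrix V V ℤ) (h : Cert c M S) :
    (toR M).PosSemidef := by
  obtain ⟨hs, hd⟩ := h
  have hR : (0 : ℝ) < c := by exact_mod_cast hc
  set E : Matrix V V ℝ := (c : ℝ) • toR M - toR S * (toR S)ᵀ with hE
  have hEij : ∀ i j, E i j = ((c * M i j - ∑ k, S i k * S j k : ℤ) : ℝ) := by
    intro i j
    simp [hE, toR, Matrix.mul_apply]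
  have hEs : Eᵀ = E := by
    ext i j
    rw [Matrix.transpose_apply, hEij, hEij]
    have : M j i = M i j := congrFun (congrFun hs i) j
    rw [this]
    congr 2
    exact sum_congr rfl fun k _ => mul_comm _ _
  have hEp : E.PosSemidef := by
    apply dd_psd E hEs
    intro i
    rw [hEij i i]
    calc ∑ j ∈ univ.erase i, |E i j|
        = ((∑ j ∈ univ.erase i, |c * M i j - ∑ k, S i k * S j k| : ℤ) : ℝ) := by
          rw [Int.cast_sum]
          refine sum_congr rfl fun j _ => ?_
          rw [hEij, Int.cast_abs]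
      _ ≤ _ := by exact_mod_cast hd i
  have hSp : (toR S * (toR S)ᵀ).PosSemidef := by
    have := Matrix.posSemidef_self_mul_conjTranspose (toR S)
    rwa [Matrix.conjTranspose_eq_transpose_of_trivial] at this
  have hsum : ((c : ℝ) • toR M).PosSemidef := by
    have : (c : ℝ) • toR M = E + toR S * (toR S)ᵀ := by rw [hE]; abel
    rw [this]; exact hEp.add hSp
  have := hsum.smul (inv_nonneg.2 hR.le)
  rwa [smul_smul, inv_mul_cancel₀ hR.ne', one_smul] at this

/-! ### The graph -/

/-- the edges -/
def Ed : List (Fin 11 × Fin 11) := [(0, 1), (2, 3), (0, 4), (1, 4), (2, 4), (3, 4), (1, 5), (2, 5), (4, 5), (2, 6), (3, 6), (0, 7), (1, 7), (2, 7), (3, 7), (4, 7), (6, 7), (2, 8), (3, 8), (4, 8), (5, 8), (6, 8), (0, 9), (1, 9), (3, 9), (4, 9), (6, 9), (7, 9), (8, 9), (0, 10), (1, 10), (2, 10), (4, 10), (5, 10), (6, 10), (7, 10), (8, 10), (9, 10)]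

/-- the graph on 11 vertices -/
def G : SimpleGraph (Fin 11) where
  Adj a b := (a, b) ∈ Ed ∨ (b, a) ∈ Ed
  symm := ⟨fun _ _ h => h.symm⟩
  loopless := ⟨by decide⟩

instance : DecidableRel G.Adj := fun a b => inferInstanceAs (Decidable ((a, b) ∈ Ed ∨ (b, a) ∈ Ed))

/-- index of a vertex of the subdivided graph -/
def ix : Option (Fin 11) → ℕ
  | none => 11
  | some i => i

/-- matrices given by lists -/
def mk {V : Type*} (f : V → ℕ) (L : List (List ℤ)) : Matrix V V ℤ :=
  fun i j => (L.getD (f i) []).getD (f j) 0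

def XL : List (List ℤ) := [
  [-38918, 52931, -26038, -10910, 22971, -11204, -10910, 38098, -26038, 38098, 22971],
  [52931, -39040, -12839, -26038, 34363, 26926, -26038, 21165, -12839, 21165, 34363],
  [-26038, -12839, -46196, 18210, 9726, 40124, 39905, 811, 48821, -4143, 31421],
  [-10910, -26038, 18210, 4189, 49266, -26331, 9142, 18504, 39905, 40199, -45750],
  [22971, 34363, 9726, 49266, -16905, 38196, -45750, 5894, 31421, 27589, -11951],
  [-11204, 26926, 40124, -26331, 38196, -4659, -26331, -28260, 40124, -28260, 38196],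
  [-10910, -26038, 39905, 9142, -45750, -26331, 4189, 40199, 18210, 18504, 49266],
  [38098, 21165, 811, 18504, 5894, -28260, 40199, -49735, -4143, 45282, 27589],
  [-26038, -12839, 48821, 39905, 31421, 40124, 18210, -4143, -46196, 811, 9726],
  [38098, 21165, -4143, 40199, 27589, -28260, 18504, 45282, 811, -49735, 5894],
  [22971, 34363, 31421, -45750, -11951, 38196, 49266, 27589, 9726, 5894, -16905]]
def S1L : List (List ℤ) := [
  [98603, -37112, 18250, 7648, -16109, 7848, 7648, -26710, 18250, -26710, -16109],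
  [-37112, 98687, 9003, 18254, -24092, -18875, 18254, -14841, 9003, -14841, -24092],
  [18250, 9003, 103712, -12773, -6817, -28116, -27980, -575, -34222, 2897, -22024],
  [7648, 18254, -12773, 68383, -34537, 18459, -6421, -12978, -27980, -28185, 32065],
  [-16109, -24092, -6817, -34537, 83178, -26769, 32065, -4139, -22024, -19346, 8374],
  [7848, -18875, -28116, 18459, -26769, 74608, 18459, 19806, -28116, 19806, -26769],
  [7648, 18254, -27980, -6421, 32065, 18459, 68383, -28185, -12773, -12978, -34537],
  [-26710, -14841, -575, -12978, -4139, 19806, -28185, 106184, 2897, -31750, -19346],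
  [18250, 9003, -34222, -27980, -22024, -28116, -12773, 2897, 103712, -575, -6817],
  [-26710, -14841, 2897, -28185, -19346, 19806, -12978, -31750, -575, 106184, -4139],
  [-16109, -24092, -22024, 32065, 8374, -26769, -34537, -19346, -6817, -4139, 83178]]
def S2L : List (List ℤ) := [
  [44034, 37096, -18265, -7645, 16114, -7849, -7645, 26708, -18265, 26708, 16114],
  [37096, 43967, -8984, -18268, 24078, 18866, -18268, 14850, -8984, 14850, 24078],
  [-18265, -8984, 38939, 12763, 6816, 28115, 27969, 577, 34240, -2912, 22027],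
  [-7645, -18268, 12763, 74267, 34530, -18448, 6400, 12978, 27969, 28185, -32065],
  [16114, 24078, 6816, 34530, 59479, 26783, -32065, 4131, 22027, 19342, -8386],
  [-7849, 18866, 28115, -18448, 26783, 68069, -18448, -19817, 28115, -19817, 26783],
  [-7645, -18268, 27969, 6400, -32065, -18448, 74267, 28185, 12763, 12978, 34530],
  [26708, 14850, 577, 12978, 4131, -19817, 28185, 36442, -2912, 31743, 19342],
  [-18265, -8984, 34240, 27969, 22027, 28115, 12763, -2912, 38939, 577, 6816],
  [26708, 14850, -2912, 28185, 19342, -19817, 12978, 31743, 577, 36442, 4131],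
  [16114, 24078, 22027, -32065, -8386, 26783, 34530, 19342, 6816, 4131, 59479]]
def PL : List (List ℤ) := [
  [76456, 64785, 11700, 23342, 58615, 10949, 23342, 70257, 11700, 70257, 58615, 46915],
  [64785, 84046, 30461, 11230, 76907, 57604, 11230, 57675, 30461, 57675, 76907, 46445],
  [11700, 30461, 91324, 72533, 77127, 65194, 72533, 58366, 91294, 58366, 77127, -14167],
  [23342, 11230, 72533, 84675, 58836, 18539, 84645, 70948, 72533, 70948, 58836, -13697],
  [58615, 76907, 77127, 58836, 102378, 72784, 58836, 84056, 77127, 84056, 102348, 25221],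
  [10949, 57604, 65194, 18539, 72784, 93368, 18539, 26129, 65194, 26129, 72784, 7590],
  [23342, 11230, 72533, 84645, 58836, 18539, 84675, 70948, 72533, 70948, 58836, -13697],
  [70257, 57675, 58366, 70948, 84056, 26129, 70948, 96669, 58366, 96639, 84056, 25691],
  [11700, 30461, 91294, 72533, 77127, 65194, 72533, 58366, 91324, 58366, 77127, -14167],
  [70257, 57675, 58366, 70948, 84056, 26129, 70948, 96639, 58366, 96669, 84056, 25691],
  [58615, 76907, 77127, 58836, 102348, 72784, 58836, 84056, 77127, 84056, 102378, 25221],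
  [46915, 46445, -14167, -13697, 25221, 7590, -13697, 25691, -14167, 25691, 25221, 39418]]
def S3L : List (List ℤ) := [
  [45921, 32646, -7522, 4520, 22411, -6476, 4520, 34451, -7522, 34451, 22411, 29925],
  [32646, 47513, 5037, -8596, 33913, 30470, -8596, 20260, 5037, 20260, 33913, 28842],
  [-7522, 5037, 44306, 30489, 28499, 32078, 30489, 15942, 43051, 15942, 28499, -14555],
  [4520, -8596, 30489, 44857, 17020, -4878, 43602, 30119, 30489, 30119, 17020, -13485],
  [22411, 33913, 28499, 17020, 41879, 33664, 17020, 29119, 28499, 29119, 40624, 12126],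
  [-6476, 30470, 32078, -4878, 33664, 63000, -4878, -3260, 32078, -3260, 33664, 1604],
  [4520, -8596, 30489, 43602, 17020, -4878, 44857, 30119, 30489, 30119, 17020, -13485],
  [34451, 20260, 15942, 30119, 29119, -3260, 30119, 44582, 15942, 43327, 29119, 13201],
  [-7522, 5037, 43051, 30489, 28499, 32078, 30489, 15942, 44306, 15942, 28499, -14555],
  [34451, 20260, 15942, 30119, 29119, -3260, 30119, 43327, 15942, 44582, 29119, 13201],
  [22411, 33913, 28499, 17020, 40624, 33664, 17020, 29119, 28499, 29119, 41879, 12126],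
  [29925, 28842, -14555, -13485, 12126, 1604, -13485, 13201, -14555, 13201, 12126, 27937]]
def QL : List (List ℤ) := [
  [76456, 64785, 11700, 23342, -41385, 10949, 23342, -29743, 11700, -29743, -41385, -53085],
  [64785, 84046, 30461, 11230, -23093, -42396, 11230, -42325, 30461, -42325, -23093, -53555],
  [11700, 30461, 91324, -27467, -22873, -34806, -27467, -41634, -8706, 58366, -22873, -14167],
  [23342, 11230, -27467, 84675, -41164, 18539, -15355, -29052, -27467, -29052, 58836, -13697],
  [-41385, -23093, -22873, -41164, 102378, -27216, 58836, -15944, -22873, -15944, 2348, 25221],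
  [10949, -42396, -34806, 18539, -27216, 93368, 18539, 26129, -34806, 26129, -27216, 7590],
  [23342, 11230, -27467, -15355, 58836, 18539, 84675, -29052, -27467, -29052, -41164, -13697],
  [-29743, -42325, -41634, -29052, -15944, 26129, -29052, 96669, 58366, -3361, -15944, 25691],
  [11700, 30461, -8706, -27467, -22873, -34806, -27467, 58366, 91324, -41634, -22873, -14167],
  [-29743, -42325, 58366, -29052, -15944, 26129, -29052, -3361, -41634, 96669, -15944, 25691],
  [-41385, -23093, -22873, 58836, 2348, -27216, -41164, -15944, -22873, -15944, 102378, 25221],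
  [-53085, -53555, -14167, -13697, 25221, 7590, -13697, 25691, -14167, 25691, 25221, 39418]]
def S4L : List (List ℤ) := [
  [49219, 37794, 5300, 15518, -27194, 12049, 15518, -16976, 5300, -16976, -27194, -32479],
  [37794, 52152, 19112, 5991, -12672, -28111, 5991, -25793, 19112, -25793, -12672, -31789],
  [5300, 19112, 64951, -20197, -14365, -25210, -20197, -28174, -6388, 41914, -14365, -7973],
  [15518, 5991, -20197, 60668, -28867, 14944, -10670, -19340, -20197, -19340, 41221, -8666],
  [-27194, -12672, -14365, -28867, 72806, -22300, 41221, -13035, -14365, -13035, 1468, 15845],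
  [12049, -28111, -25210, 14944, -22300, 71005, 14944, 17854, -25210, 17854, -22300, 2908],
  [15518, 5991, -20197, -10670, 41221, 14944, 60668, -19340, -20197, -19340, -28867, -8666],
  [-16976, -25793, -28174, -19340, -13035, 17854, -19340, 67138, 41914, -4201, -13035, 15152],
  [5300, 19112, -6388, -20197, -14365, -25210, -20197, 41914, 64951, -28174, -14365, -7973],
  [-16976, -25793, 41914, -19340, -13035, 17854, -19340, -4201, -28174, 67138, -13035, 15152],
  [-27194, -12672, -14365, 41221, 1468, -22300, -28867, -13035, -14365, -13035, 72806, 15845],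
  [-32479, -31789, -7973, -8666, 15845, 2908, -8666, 15152, -7973, 15152, 15845, 25057]]

def X : Matrix (Fin 11) (Fin 11) ℤ := mk (fun i => i.val) XL
def S1 : Matrix (Fin 11) (Fin 11) ℤ := mk (fun i => i.val) S1L
def S2 : Matrix (Fin 11) (Fin 11) ℤ := mk (fun i => i.val) S2L
def P : Matrix (Option (Fin 11)) (Option (Fin 11)) ℤ := mk ix PL
def Q : Matrix (Option (Fin 11)) (Option (Fin 11)) ℤ := mk ix QL
def S3 : Matrix (Option (Fin 11)) (Option (Fin 11)) ℤ := mk ix S3L
def S4 : Matrix (Option (Fin 11)) (Option (Fin 11)) ℤ := mk ix S4L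

def XM (s : ℤ) : Matrix (Fin 11) (Fin 11) ℤ := fun i j => (if i = j then 100000 else 0) + s * X i j

instance {V : Type*} [Fintype V] [DecidableEq V] (c : ℤ) (M S : Matrix V V ℤ) :
    Decidable (Cert c M S) :=
  inferInstanceAs (Decidable ((Mᵀ = M) ∧ _))

lemma c1 : Cert 100000 (XM (-1)) S1 := by decide +kernel
lemma c2 : Cert 100000 (XM 1) S2 := by decide +kernel
lemma c3 : Cert 100000 P S3 := by decide +kernel
lemma c4 : Cert 100000 Q S4 := by decide +kernel

lemma PQ : ∀ a b, P a b - Q a b = 100000 * (if (subdivide G 0 1).Adj a b then 1 else 0) := by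
  decide +kernel

lemma tr1 : ∑ a, ∑ b, (if G.Adj a b then (1 : ℤ) else 0) * X b a = 2088070 := by decide +kernel

lemma tr2 : (∑ a, P a a) + ∑ a, Q a a = 2086760 := by decide +kernel

lemma conn_aux : ∀ v : Fin 11, v = 4 ∨ G.Adj 4 v ∨ ∃ w, G.Adj 4 w ∧ G.Adj w v := by
  decide +kernel

lemma G_connected : G.Connected := by
  rw [SimpleGraph.connected_iff_exists_forall_reachable]
  refine ⟨4, fun v => ?_⟩
  rcases conn_aux v with rfl | h | ⟨w, h1, h2⟩
  · exact SimpleGraph.Reachable.refl _
  · exact h.reachable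
  · exact h1.reachable.trans h2.reachable

lemma not_central : ¬ IsCentralEdge G 0 1 := by
  unfold IsCentralEdge; decide +kernel

lemma not_second : ¬ SecondCondition G 0 1 := by
  rintro ⟨h, -, -⟩
  revert h
  decide +kernel

lemma energy_G : (2088070 : ℝ) / 100000 ≤ energy G := by
  have h1 : ((1 : Matrix (Fin 11) (Fin 11) ℝ) - (1 / 100000 : ℝ) • toR X).PosSemidef := by
    have := (cert_psd 100000 (by norm_num) _ _ c1).smul (show (0 : ℝ) ≤ 1 / 100000 by norm_num)
    convert this using 1
    ext i j
    simp only [Matrix.sub_apply, Matrix.smul_apply, toR, XM, Matrix.map_apply, smul_eq_mul,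
      Matrix.one_apply]
    by_cases h : i = j
    · simp [h]; ring
    · simp [h]
  have h2 : ((1 : Matrix (Fin 11) (Fin 11) ℝ) + (1 / 100000 : ℝ) • toR X).PosSemidef := by
    have := (cert_psd 100000 (by norm_num) _ _ c2).smul (show (0 : ℝ) ≤ 1 / 100000 by norm_num)
    convert this using 1
    ext i j
    simp only [Matrix.add_apply, Matrix.smul_apply, toR, XM, Matrix.map_apply, smul_eq_mul,
      Matrix.one_apply]
    by_cases h : i = j
    · simp [h]; ring
    · simp [h]
  have h3 := lower (adj_hermitian G) _ h1 h2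
  refine le_trans (le_of_eq ?_) h3
  have ht := congrArg (Int.cast : ℤ → ℝ) tr1
  rw [Matrix.mul_smul, Matrix.trace_smul, Matrix.trace]
  simp only [Matrix.diag_apply, Matrix.mul_apply, SimpleGraph.adjMatrix_apply, toR,
    Matrix.map_apply, smul_eq_mul]
  push_cast at ht
  rw [ht]
  ring

lemma energy_G' : energy (subdivide G 0 1) ≤ (2086760 : ℝ) / 100000 := by
  have hP := (cert_psd 100000 (by norm_num) _ _ c3).smul (show (0 : ℝ) ≤ 1 / 100000 by norm_num)
  have hQ := (cert_psd 100000 (by norm_num) _ _ c4).smul (show (0 : ℝ) ≤ 1 / 100000 by norm_num)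
  have hA : (subdivide G 0 1).adjMatrix ℝ = (1 / 100000 : ℝ) • toR P - (1 / 100000 : ℝ) • toR Q := by
    ext a b
    have := congrArg (Int.cast : ℤ → ℝ) (PQ a b)
    rw [Matrix.sub_apply, Matrix.smul_apply, Matrix.smul_apply, SimpleGraph.adjMatrix_apply]
    simp only [toR, Matrix.map_apply, smul_eq_mul]
    push_cast at this
    split_ifs at this ⊢ <;> linarith
  refine le_trans (upper (adj_hermitian (subdivide G 0 1)) _ _ hP hQ hA) (le_of_eq ?_)
  have ht := congrArg (Int.cast : ℤ → ℝ) tr2
  rw [Matrix.trace_smul, Matrix.trace_smul, Matrix.trace, Matrix.trace]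
  simp only [Matrix.diag_apply, toR, Matrix.map_apply, smul_eq_mul]
  push_cast at ht
  rw [← mul_add, ht]
  ring

/-- **The statement of Q1 is false.** There are a connected graph `G` on `11` vertices and an edge
`ij` of `G` whose subdivision decreases the energy, although `ij` is not the central edge of an
induced diamond and the second condition fails. -/
theorem result : ∃ (H : SimpleGraph (Fin 11)) (_ : DecidableRel H.Adj) (i j : Fin 11),
    H.Connected ∧ H.Adj i j ∧ energy (subdivide H i j) < energy H ∧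
      ¬ IsCentralEdge H i j ∧ ¬ SecondCondition H i j := by
  refine ⟨G, inferInstance, 0, 1, G_connected, by decide, ?_, not_central, not_second⟩
  refine lt_of_le_of_lt energy_G' (lt_of_lt_of_le ?_ energy_G)
  norm_num

end Pool.Agent.Results.MP_8ce0fa_co.ElevenVertices
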